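import Pool.Agent.P.MP_cb22e8_co.AC.All

/-!
Green's question on covering `ZMod p` by `c √p` translates of a random set of size `√p`,
for every constant `c` (in particular `c = 1.01` and `c = 100`).
-/

namespace Pool.Agent.Results.MP_cb22e8_co.EveryConstant

/-- The proportion of the `k`-element subsets `A` of `ZMod n`, where `k = ⌊√n⌋`, such that
`ZMod n = A + T` for some set `T` of at most `⌊c k⌋` residues. -/
noncomputable def coverProb (c : ℝ) (n : ℕ) : ℝ :=
  ({A : Finset (ZMod n) | A.card = Nat.sqrt n ∧ ∃ T : Finset (ZMod n),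
      T.card ≤ ⌊c * Nat.sqrt n⌋₊ ∧ ∀ z, ∃ a ∈ A, ∃ t ∈ T, a + t = z}.ncard : ℝ) /
    n.choose (Nat.sqrt n)

/-- For every constant `c` the covering probability tends to `0` as the modulus tends to
infinity, through all natural numbers and hence through the primes. -/
theorem result (c : ℝ) : Filter.Tendsto (coverProb c) Filter.atTop (nhds 0) :=
  Pool.Agent.P.MP_cb22e8_co.AC.final_holds c

end Pool.Agent.Results.MP_cb22e8_co.EveryConstant
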